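import Mathlib

/-!
# Lifting cycles to regular models, orthogonally to the fibral cycles: definitions

`ChowTheory` collects the data which occur in the problem: the smooth proper varieties over number
fields (considered as schemes over `ℚ`) with their Chow rings, and their regular proper flat models
over rings of integers (considered as schemes over `ℤ`) with their Chow rings, all with rational
coefficients. `IsChowTheory` lists the properties which are used.
-/

set_option autoImplicit false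

namespace Pool.Agent.TH121.HP

/-- The data: varieties, cycles, models. -/
structure ChowTheory where
  /-- the smooth proper varieties `X` over number fields -/
  Var : Type
  /-- the dimension -/
  dim : Var → ℕ
  /-- the Chow ring `⊕ Ch^i(X)` with rational coefficients -/
  G : Var → Type
  [ringG : ∀ X, CommRing (G X)]
  [algG : ∀ X, Algebra ℚ (G X)]
  /-- the component in `Ch^i(X)` of a cycle class -/
  comp : ∀ X, ℕ → G X →ₗ[ℚ] G X
  /-- Betti or `ℓ`-adic cohomology -/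
  H : Var → Type
  [grpH : ∀ X, AddCommGroup (H X)]
  [modH : ∀ X, Module ℚ (H X)]
  /-- the cycle class map -/
  cl : ∀ X, G X →ₗ[ℚ] H X
  /-- the regular proper flat models `𝒳` of `X` over the ring of integers of a number field -/
  Mod : Var → Type
  /-- the Chow ring `⊕ Ch^i(𝒳)` with rational coefficients -/
  Ch : ∀ {X}, Mod X → Type
  [ringC : ∀ {X} (𝒳 : Mod X), CommRing (Ch 𝒳)]
  [algC : ∀ {X} (𝒳 : Mod X), Algebra ℚ (Ch 𝒳)]
  /-- the component in `Ch^i(𝒳)` of a cycle class -/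
  compM : ∀ {X} (𝒳 : Mod X), ℕ → Ch 𝒳 →ₗ[ℚ] Ch 𝒳
  /-- the restriction to the generic fibre -/
  res : ∀ {X} (𝒳 : Mod X), Ch 𝒳 →ₐ[ℚ] G X
  /-- the arithmetic degree `∑ deg_p(f) log p` of a fibral cycle class `f` on `𝒳` (the degree of its
  component in `Ch^(d+1)(𝒳)`); it is used for fibral cycles only -/
  deg : ∀ {X} (𝒳 : Mod X), Ch 𝒳 → ℝ
  /-- the models which are smooth over the ring of integers -/
  IsSmooth : ∀ {X}, Mod X → Prop
  /-- the models which are projective and strictly semistable over the ring of integers -/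
  IsSemistable : ∀ {X}, Mod X → Prop
  /-- the morphisms -/
  Mor : Var → Var → Type
  /-- the pull-back of cycles on varieties -/
  pull : ∀ {X Y}, Mor X Y → G Y →ₗ[ℚ] G X
  /-- the push-forward of cycles on varieties -/
  push : ∀ {X Y}, Mor X Y → G X →ₗ[ℚ] G Y
  /-- the morphism `f` from `X` to `Y` extends to a morphism from `𝒳` to `𝒴` -/
  Extends : ∀ {X Y}, Mor X Y → Mod X → Mod Y → Prop
  /-- the pull-back of cycles on models, if `f` extends -/
  pullM : ∀ {X Y} (_ : Mor X Y) (𝒳 : Mod X) (𝒴 : Mod Y), Ch 𝒴 →ₗ[ℚ] Ch 𝒳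
  /-- the push-forward of cycles on models, if `f` extends -/
  pushM : ∀ {X Y} (_ : Mor X Y) (𝒳 : Mod X) (𝒴 : Mod Y), Ch 𝒳 →ₗ[ℚ] Ch 𝒴
  /-- the correspondences from `X` to `Y`: the elements `Γ` of the Chow group of `X × Y` -/
  Corr : Var → Var → Type
  /-- the action `c ↦ pr_*(Γ · pr^* c)` -/
  act : ∀ {X Y}, Corr X Y → G X →ₗ[ℚ] G Y

attribute [instance] ChowTheory.ringG ChowTheory.algG ChowTheory.grpH ChowTheory.modH
  ChowTheory.ringC ChowTheory.algC

namespace ChowTheory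

variable (T : ChowTheory)

/-- The component in `Ch^i(X)`. -/
def part {X : T.Var} (i : ℕ) (c : T.G X) : T.G X := T.comp X i c

/-- The component in `Ch^i(𝒳)`. -/
def partM {X : T.Var} {𝒳 : T.Mod X} (i : ℕ) (z : T.Ch 𝒳) : T.Ch 𝒳 := T.compM 𝒳 i z

/-- The sum of the components of degree less than `n`. -/
def sum {X : T.Var} (n : ℕ) (c : T.G X) : T.G X := ∑ i ∈ Finset.range n, T.part i c

/-- The sum of the components of degree less than `n`. -/
def sumM {X : T.Var} {𝒳 : T.Mod X} (n : ℕ) (z : T.Ch 𝒳) : T.Ch 𝒳 :=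
  ∑ i ∈ Finset.range n, T.partM i z

/-- The restriction of `z` to the generic fibre. -/
def gen {X : T.Var} {𝒳 : T.Mod X} (z : T.Ch 𝒳) : T.G X := T.res 𝒳 z

/-- The intersection product on the model. -/
def prod {X : T.Var} {𝒳 : T.Mod X} (z w : T.Ch 𝒳) : T.Ch 𝒳 := z * w

/-- `f^* c`. -/
def up {X Y : T.Var} (f : T.Mor X Y) (c : T.G Y) : T.G X := T.pull f c

/-- `f_* c`. -/
def down {X Y : T.Var} (f : T.Mor X Y) (c : T.G X) : T.G Y := T.push f c

/-- `f^* z`, for the models. -/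
def upM {X Y : T.Var} (f : T.Mor X Y) {𝒳 : T.Mod X} {𝒴 : T.Mod Y} (z : T.Ch 𝒴) : T.Ch 𝒳 :=
  T.pullM f 𝒳 𝒴 z

/-- `f_* z`, for the models. -/
def downM {X Y : T.Var} (f : T.Mor X Y) {𝒳 : T.Mod X} {𝒴 : T.Mod Y} (z : T.Ch 𝒳) : T.Ch 𝒴 :=
  T.pushM f 𝒳 𝒴 z

/-- `Γ_* c`. -/
def app {X Y : T.Var} (Γ : T.Corr X Y) (c : T.G X) : T.G Y := T.act Γ c

/-- `c` is in `Ch^i(X)`. -/
def IsHom {X : T.Var} (i : ℕ) (c : T.G X) : Prop := T.part i c = c

/-- `z` is in `Ch^i(𝒳)`. -/
def IsHomM {X : T.Var} {𝒳 : T.Mod X} (i : ℕ) (z : T.Ch 𝒳) : Prop := T.partM i z = z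

/-- `c` is cohomologically trivial. -/
def IsTrivial {X : T.Var} (c : T.G X) : Prop := T.cl X c = 0

/-- `f` is fibral: its restriction to the generic fibre is zero. -/
def IsFibral {X : T.Var} {𝒳 : T.Mod X} (f : T.Ch 𝒳) : Prop := T.gen f = 0

/-- The arithmetic intersection number of `z` with the fibral cycle `f`. -/
def inter {X : T.Var} {𝒳 : T.Mod X} (z f : T.Ch 𝒳) : ℝ := T.deg 𝒳 (T.prod z f)

/-- The cycle class `c` in `Ch^i(X)` is in the image of `Ch^(d+1-i)_fin(𝒳)^⊥`: it has a lift `z` in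
`Ch^i(𝒳)` which is orthogonal to the fibral elements `f` of `Ch^j(𝒳)`, `j = d + 1 - i`. -/
def Lifts {X : T.Var} (𝒳 : T.Mod X) (i : ℕ) (c : T.G X) : Prop :=
  ∃ z : T.Ch 𝒳, T.IsHomM i z ∧ T.gen z = c ∧
    ∀ (j : ℕ) (f : T.Ch 𝒳), i + j = T.dim X + 1 → T.IsHomM j f → T.IsFibral f → T.inter z f = 0

/-- The statement of the problem for the model `𝒳` and the codimension `i`: all the cohomologically
trivial `c` in `Ch^i(X)` have such a lift. -/
def QOneIn {X : T.Var} (𝒳 : T.Mod X) (i : ℕ) : Prop :=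
  ∀ c : T.G X, T.IsHom i c → T.IsTrivial c → T.Lifts 𝒳 i c

/-- **The statement of the problem**, Q1, for the model `𝒳` (for all `i`). -/
def QOneFor {X : T.Var} (𝒳 : T.Mod X) : Prop := ∀ i, T.QOneIn 𝒳 i

/-- All the components of `c` have such a lift to `𝒳`. -/
def Liftable {X : T.Var} (𝒳 : T.Mod X) (c : T.G X) : Prop :=
  ∀ i, T.Lifts 𝒳 i (T.part i c)

/-- The classes `Γ_* c`, where `Γ` is a correspondence from a variety `Y` to `X` and `c` is a
cohomologically trivial cycle class on `Y`, such that `Y` has a model which is smooth over the ring of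
integers of a number field, or a model for which Q1 holds. -/
def Transported (X : T.Var) : Set (T.G X) :=
  {b | ∃ (Y : T.Var) (𝒴 : T.Mod Y) (Γ : T.Corr Y X) (c : T.G Y),
    (T.IsSmooth 𝒴 ∨ T.QOneFor 𝒴) ∧ T.IsTrivial c ∧ b = T.app Γ c}

/-- `c` is a linear combination of such classes. -/
def IsTransported {X : T.Var} (c : T.G X) : Prop := c ∈ Submodule.span ℚ (T.Transported X)

/-- The zero map. -/
def zeroMap (X Y : T.Var) : T.G X → T.G Y := fun _ => 0

/-- The sum of two maps. -/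
def addMap {X Y : T.Var} (φ ψ : T.G X → T.G Y) : T.G X → T.G Y := fun c => φ c + ψ c

/-- The multiple of a map. -/
def smulMap {X Y : T.Var} (a : ℚ) (φ : T.G X → T.G Y) : T.G X → T.G Y := fun c => a • φ c

/-- The map `q_* p^*`. -/
def downUp {W X Y : T.Var} (p : T.Mor W X) (q : T.Mor W Y) : T.G X → T.G Y :=
  fun c => T.down q (T.up p c)

/-- The linear combinations of maps `q_* p^*`, for a variety `W` with a model `𝒲` and morphisms `p` from
`W` to `X` and `q` from `W` to `Y` which extend to morphisms from `𝒲` to `𝒳` and from `𝒲` to `𝒴`. -/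
inductive IsGeometric {X Y : T.Var} (𝒳 : T.Mod X) (𝒴 : T.Mod Y) : (T.G X → T.G Y) → Prop
  | basic (W : T.Var) (𝒲 : T.Mod W) (p : T.Mor W X) (q : T.Mor W Y) (hp : T.Extends p 𝒲 𝒳)
    (hq : T.Extends q 𝒲 𝒴) : IsGeometric 𝒳 𝒴 (T.downUp p q)
  | zero : IsGeometric 𝒳 𝒴 (T.zeroMap X Y)
  | add (φ ψ : T.G X → T.G Y) (hφ : IsGeometric 𝒳 𝒴 φ) (hψ : IsGeometric 𝒳 𝒴 ψ) :
    IsGeometric 𝒳 𝒴 (T.addMap φ ψ)
  | smul (a : ℚ) (φ : T.G X → T.G Y) (hφ : IsGeometric 𝒳 𝒴 φ) :
    IsGeometric 𝒳 𝒴 (T.smulMap a φ)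

/-- `Y` has a correspondence `Γ` from `X` and a correspondence `Γ'` to `X` with `Γ' ∘ Γ = 1`. -/
def IsInverse {X Y : T.Var} (Γ : T.Corr X Y) (Γ' : T.Corr Y X) : Prop :=
  ∀ c, T.app Γ' (T.app Γ c) = c

/-- `Γ` maps `Ch^i(X)` to `Ch^(i+j)(Y)`. -/
def HasDegree {X Y : T.Var} (Γ : T.Corr X Y) (j : ℕ) : Prop :=
  ∀ i c, T.IsHom i c → T.IsHom (i + j) (T.app Γ c)

end ChowTheory

/-- The grading of the Chow ring of a variety. -/
structure Grading (T : ChowTheory) : Prop where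
  part_self : ∀ X i (c : T.G X), T.IsHom i (T.part i c)
  part_ne : ∀ X i j (c : T.G X), i ≠ j → T.IsHom j c → T.part i c = 0
  sum_part : ∀ X (c : T.G X), ∃ n, T.sum n c = c
  trivial_part : ∀ X i (c : T.G X), T.IsTrivial c → T.IsTrivial (T.part i c)

/-- The grading of the Chow ring of a model. -/
structure GradingM (T : ChowTheory) : Prop where
  part_self : ∀ X (𝒳 : T.Mod X) i (z : T.Ch 𝒳), T.IsHomM i (T.partM i z)
  part_ne : ∀ X (𝒳 : T.Mod X) i j (z : T.Ch 𝒳), i ≠ j → T.IsHomM j z → T.partM i z = 0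
  sum_part : ∀ X (𝒳 : T.Mod X) (z : T.Ch 𝒳), ∃ n, T.sumM n z = z
  mul_mem : ∀ X (𝒳 : T.Mod X) i j (z w : T.Ch 𝒳), T.IsHomM i z → T.IsHomM j w →
    T.IsHomM (i + j) (T.prod z w)
  gen_part : ∀ X (𝒳 : T.Mod X) i (z : T.Ch 𝒳), T.gen (T.partM i z) = T.part i (T.gen z)

/-- The restriction to the generic fibre and the degree of fibral cycles. -/
structure Degree (T : ChowTheory) : Prop where
  /-- every cycle on `X` is the restriction of a cycle on `𝒳` -/
  gen_surjective : ∀ X (𝒳 : T.Mod X) (c : T.G X), ∃ z : T.Ch 𝒳, T.gen z = c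
  deg_add : ∀ X (𝒳 : T.Mod X) (f g : T.Ch 𝒳), T.IsFibral f → T.IsFibral g →
    T.deg 𝒳 (f + g) = T.deg 𝒳 f + T.deg 𝒳 g
  deg_smul : ∀ X (𝒳 : T.Mod X) (a : ℚ) (f : T.Ch 𝒳), T.IsFibral f →
    T.deg 𝒳 (a • f) = a * T.deg 𝒳 f
  deg_eq_zero : ∀ X (𝒳 : T.Mod X) i (f : T.Ch 𝒳), T.IsHomM i f → T.IsFibral f →
    i ≠ T.dim X + 1 → T.deg 𝒳 f = 0

/-- The pull-back and the push-forward. -/
structure Functorial (T : ChowTheory) : Prop where
  gen_up : ∀ X Y (f : T.Mor X Y) (𝒳 : T.Mod X) (𝒴 : T.Mod Y) (z : T.Ch 𝒴), T.Extends f 𝒳 𝒴 →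
    T.gen (T.upM f z : T.Ch 𝒳) = T.up f (T.gen z)
  gen_down : ∀ X Y (f : T.Mor X Y) (𝒳 : T.Mod X) (𝒴 : T.Mod Y) (z : T.Ch 𝒳),
    T.Extends f 𝒳 𝒴 → T.gen (T.downM f z : T.Ch 𝒴) = T.down f (T.gen z)
  /-- the projection formula -/
  projection : ∀ X Y (f : T.Mor X Y) (𝒳 : T.Mod X) (𝒴 : T.Mod Y) (z : T.Ch 𝒴) (w : T.Ch 𝒳),
    T.Extends f 𝒳 𝒴 → T.downM f (T.prod (T.upM f z) w) = T.prod z (T.downM f w)
  deg_down : ∀ X Y (f : T.Mor X Y) (𝒳 : T.Mod X) (𝒴 : T.Mod Y) (w : T.Ch 𝒳),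
    T.Extends f 𝒳 𝒴 → T.IsFibral w → T.deg 𝒴 (T.downM f w) = T.deg 𝒳 w

/-- Correspondences, alterations and the products with projective spaces. -/
structure Correspondences (T : ChowTheory) : Prop where
  /-- the correspondences act on cohomology -/
  trivial_app : ∀ X Y (Γ : T.Corr X Y) (c : T.G X), T.IsTrivial c → T.IsTrivial (T.app Γ c)
  /-- the diagonal acts as the identity -/
  diagonal : ∀ X, ∃ Δ : T.Corr X X, ∀ c, T.app Δ c = c
  /-- Theorem of de Jong: the closure in `𝒳 × 𝒴` of an integral closed subscheme of `X × Y` has an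
  alteration `𝒲` which is regular and proper and flat over `ℤ`. So the action of a correspondence is a
  linear combination of maps `q_* p^*` for the morphisms from `𝒲` to `𝒳` and `𝒴`. -/
  alteration : ∀ X Y (𝒳 : T.Mod X) (𝒴 : T.Mod Y) (Γ : T.Corr X Y), T.IsGeometric 𝒳 𝒴 (T.app Γ)
  /-- Theorem of de Jong: for every `X` there is a generically finite morphism `π` from a variety `W`
  with a strictly semistable model to `X`; take `Γ = π^*` and `Γ' = (deg π)⁻¹ π_*`. -/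
  semistable : ∀ X, ∃ (W : T.Var) (𝒲 : T.Mod W) (Γ : T.Corr X W) (Γ' : T.Corr W X),
    T.IsSemistable 𝒲 ∧ T.IsInverse Γ Γ'
  /-- the products `Y` with the projective space of dimension `n`: `Γ c = pr^* c · h^j` and
  `Γ' b = pr_*(b · h^(n-j))`, where `h` is the class of a hyperplane -/
  projective : ∀ X (𝒳 : T.Mod X) (n j : ℕ), j ≤ n → ∃ (Y : T.Var) (𝒴 : T.Mod Y)
    (Γ : T.Corr X Y) (Γ' : T.Corr Y X), T.dim Y = T.dim X + n ∧
    (T.IsSemistable 𝒳 → T.IsSemistable 𝒴) ∧ T.HasDegree Γ j ∧ T.IsInverse Γ Γ'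

/-- The properties which are used. -/
structure IsChowTheory (T : ChowTheory) : Prop where
  grading : Grading T
  gradingM : GradingM T
  degree : Degree T
  functorial : Functorial T
  correspondences : Correspondences T
  /-- known: Q1 holds for smooth models -/
  smooth : ∀ X (𝒳 : T.Mod X), T.IsSmooth 𝒳 → T.QOneFor 𝒳

end Pool.Agent.TH121.HP
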