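import Pool.Agent.TH121.HP.Defs

/-!
# Orthogonally liftable cycles are stable under correspondences
-/

set_option autoImplicit false

namespace Pool.Agent.TH121.HP

namespace ChowTheory

variable {T : ChowTheory}

/-- a lift of the whole class, orthogonal to all fibral cycles -/
def Total {X : T.Var} (𝒳 : T.Mod X) (c : T.G X) : Prop :=
  ∃ z : T.Ch 𝒳, T.gen z = c ∧ ∀ f : T.Ch 𝒳, T.IsFibral f → T.deg 𝒳 (z * f) = 0

variable (hT : IsChowTheory T)

theorem gen_mul {X : T.Var} {𝒳 : T.Mod X} (z w : T.Ch 𝒳) :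
    T.gen (z * w) = T.gen z * T.gen w := map_mul (T.res 𝒳) z w

theorem gen_add {X : T.Var} {𝒳 : T.Mod X} (z w : T.Ch 𝒳) :
    T.gen (z + w) = T.gen z + T.gen w := map_add (T.res 𝒳) z w

theorem gen_smul {X : T.Var} {𝒳 : T.Mod X} (a : ℚ) (z : T.Ch 𝒳) :
    T.gen (a • z) = a • T.gen z := map_smul (T.res 𝒳) a z

theorem gen_zero {X : T.Var} (𝒳 : T.Mod X) : T.gen (0 : T.Ch 𝒳) = 0 := map_zero (T.res 𝒳)

theorem gen_sum {X : T.Var} {𝒳 : T.Mod X} (s : Finset ℕ) (g : ℕ → T.Ch 𝒳) :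
    T.gen (∑ k ∈ s, g k) = ∑ k ∈ s, T.gen (g k) := map_sum (T.res 𝒳) g s

theorem fibral_mul {X : T.Var} {𝒳 : T.Mod X} (z : T.Ch 𝒳) {f : T.Ch 𝒳} (hf : T.IsFibral f) :
    T.IsFibral (z * f) := by
  unfold IsFibral at *
  rw [gen_mul, hf, mul_zero]

theorem fibral_sum {X : T.Var} {𝒳 : T.Mod X} (s : Finset ℕ) (g : ℕ → T.Ch 𝒳)
    (hg : ∀ k ∈ s, T.IsFibral (g k)) : T.IsFibral (∑ k ∈ s, g k) := by
  unfold IsFibral at *
  rw [gen_sum, Finset.sum_eq_zero hg]

include hT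

theorem deg_zero {X : T.Var} (𝒳 : T.Mod X) : T.deg 𝒳 0 = 0 := by
  have h := hT.degree.deg_smul X 𝒳 0 0 (gen_zero 𝒳)
  rwa [zero_smul, Rat.cast_zero, zero_mul] at h

theorem deg_sum {X : T.Var} {𝒳 : T.Mod X} (s : Finset ℕ) (g : ℕ → T.Ch 𝒳)
    (hg : ∀ k ∈ s, T.IsFibral (g k)) : T.deg 𝒳 (∑ k ∈ s, g k) = ∑ k ∈ s, T.deg 𝒳 (g k) := by
  induction s using Finset.induction with
  | empty => rw [Finset.sum_empty, Finset.sum_empty, deg_zero hT]
  | insert a s ha ih =>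
    rw [Finset.sum_insert ha, Finset.sum_insert ha, hT.degree.deg_add, ih]
    · exact fun k hk => hg k (Finset.mem_insert_of_mem hk)
    · exact hg a (Finset.mem_insert_self a s)
    · exact fibral_sum s g fun k hk => hg k (Finset.mem_insert_of_mem hk)

theorem fibral_part {X : T.Var} {𝒳 : T.Mod X} (i : ℕ) {f : T.Ch 𝒳} (hf : T.IsFibral f) :
    T.IsFibral (T.partM i f) := by
  unfold IsFibral at *
  rw [hT.gradingM.gen_part, hf]
  exact map_zero (T.comp X i)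

theorem liftable_iff {X : T.Var} (𝒳 : T.Mod X) (c : T.G X) :
    T.Liftable 𝒳 c ↔ Total 𝒳 c := by
  constructor
  · intro h
    choose z h1 h2 h3 using h
    obtain ⟨n, hn⟩ := hT.grading.sum_part X c
    refine ⟨∑ i ∈ Finset.range n, z i, ?_, fun f hf => ?_⟩
    · rw [gen_sum, Finset.sum_congr rfl fun i _ => h2 i]
      exact hn
    · obtain ⟨m, hm⟩ := hT.gradingM.sum_part X 𝒳 f
      rw [Finset.sum_mul, deg_sum hT _ _ fun k _ => fibral_mul _ hf]
      refine Finset.sum_eq_zero fun i _ => ?_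
      rw [← hm]
      unfold sumM
      rw [Finset.mul_sum, deg_sum hT _ _ fun k _ => fibral_mul _ (fibral_part hT k hf)]
      refine Finset.sum_eq_zero fun j _ => ?_
      by_cases hij : i + j = T.dim X + 1
      · exact h3 i j _ hij (hT.gradingM.part_self X 𝒳 j f) (fibral_part hT j hf)
      · exact hT.degree.deg_eq_zero X 𝒳 (i + j) _
          (hT.gradingM.mul_mem X 𝒳 i j _ _ (h1 i) (hT.gradingM.part_self X 𝒳 j f))
          (fibral_mul _ (fibral_part hT j hf)) hij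
  · rintro ⟨z, h1, h2⟩ i
    refine ⟨T.partM i z, hT.gradingM.part_self X 𝒳 i z, by rw [hT.gradingM.gen_part, h1], ?_⟩
    intro j f hij hj hf
    obtain ⟨n, hn⟩ := hT.gradingM.sum_part X 𝒳 z
    have h3 := h2 f hf
    unfold sumM at hn
    change T.deg 𝒳 (T.partM i z * f) = 0
    by_cases hi : i < n
    · rw [← hn, Finset.sum_mul, deg_sum hT _ _ fun k _ => fibral_mul _ hf,
        Finset.sum_eq_single i] at h3
      · exact h3
      · intro k _ hk
        refine hT.degree.deg_eq_zero X 𝒳 (k + j) _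
          (hT.gradingM.mul_mem X 𝒳 k j _ _ (hT.gradingM.part_self X 𝒳 k z) hj)
          (fibral_mul _ hf) ?_
        omega
      · intro h4
        exact absurd (Finset.mem_range.2 hi) h4
    · have h4 : T.partM i z = 0 := by
        rw [← hn]
        have h5 : T.partM i (∑ k ∈ Finset.range n, T.partM k z) =
            ∑ k ∈ Finset.range n, T.partM i (T.partM k z) := map_sum (T.compM 𝒳 i) _ _
        rw [h5]
        refine Finset.sum_eq_zero fun k hk => ?_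
        rw [Finset.mem_range] at hk
        exact hT.gradingM.part_ne X 𝒳 i k _ (by omega) (hT.gradingM.part_self X 𝒳 k z)
      rw [h4, zero_mul, deg_zero hT]

theorem total_add {X : T.Var} {𝒳 : T.Mod X} {b c : T.G X} (hb : Total 𝒳 b) (hc : Total 𝒳 c) :
    Total 𝒳 (b + c) := by
  obtain ⟨z, h1, h2⟩ := hb
  obtain ⟨w, h3, h4⟩ := hc
  refine ⟨z + w, by rw [gen_add, h1, h3], fun f hf => ?_⟩
  rw [add_mul, hT.degree.deg_add X 𝒳 _ _ (fibral_mul _ hf) (fibral_mul _ hf), h2 f hf, h4 f hf,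
    add_zero]

theorem total_smul {X : T.Var} {𝒳 : T.Mod X} (a : ℚ) {c : T.G X} (hc : Total 𝒳 c) :
    Total 𝒳 (a • c) := by
  obtain ⟨z, h1, h2⟩ := hc
  refine ⟨a • z, by rw [gen_smul, h1], fun f hf => ?_⟩
  rw [smul_mul_assoc, hT.degree.deg_smul X 𝒳 _ _ (fibral_mul _ hf), h2 f hf, mul_zero]

theorem total_zero {X : T.Var} (𝒳 : T.Mod X) : Total 𝒳 (0 : T.G X) := by
  refine ⟨0, gen_zero 𝒳, fun f _ => ?_⟩
  rw [zero_mul, deg_zero hT]

theorem total_mul {X : T.Var} {𝒳 : T.Mod X} (a : T.G X) {c : T.G X} (hc : Total 𝒳 c) :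
    Total 𝒳 (a * c) := by
  obtain ⟨z, h1, h2⟩ := hc
  obtain ⟨α, hα⟩ := hT.degree.gen_surjective X 𝒳 a
  refine ⟨α * z, by rw [gen_mul, h1, hα], fun f hf => ?_⟩
  have h3 := h2 (α * f) (fibral_mul α hf)
  rw [mul_comm α z, mul_assoc]
  exact h3

theorem total_pull {W X : T.Var} {𝒲 : T.Mod W} {𝒳 : T.Mod X} {p : T.Mor W X}
    (hp : T.Extends p 𝒲 𝒳) {c : T.G X} (hc : Total 𝒳 c) : Total 𝒲 (T.up p c) := by
  obtain ⟨z, h1, h2⟩ := hc
  refine ⟨T.upM p z, by rw [hT.functorial.gen_up W X p 𝒲 𝒳 z hp, h1], fun f hf => ?_⟩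
  have hf' : T.IsFibral (T.downM p f : T.Ch 𝒳) := by
    unfold IsFibral at *
    rw [hT.functorial.gen_down W X p 𝒲 𝒳 f hp, hf]
    exact map_zero (T.push p)
  have h3 := h2 _ hf'
  have h4 : T.downM p (T.upM p z * f) = z * T.downM p f :=
    hT.functorial.projection W X p 𝒲 𝒳 z f hp
  rw [← h4, hT.functorial.deg_down W X p 𝒲 𝒳 _ hp (fibral_mul _ hf)] at h3
  exact h3

theorem total_push {W Y : T.Var} {𝒲 : T.Mod W} {𝒴 : T.Mod Y} {q : T.Mor W Y}
    (hq : T.Extends q 𝒲 𝒴) {c : T.G W} (hc : Total 𝒲 c) : Total 𝒴 (T.down q c) := by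
  obtain ⟨z, h1, h2⟩ := hc
  refine ⟨T.downM q z, by rw [hT.functorial.gen_down W Y q 𝒲 𝒴 z hq, h1], fun f hf => ?_⟩
  have hf' : T.IsFibral (T.upM q f : T.Ch 𝒲) := by
    unfold IsFibral at *
    rw [hT.functorial.gen_up W Y q 𝒲 𝒴 f hq, hf]
    exact map_zero (T.pull q)
  have h3 := h2 _ hf'
  have h4 : T.IsFibral (T.upM q f * z) := by
    rw [mul_comm]; exact fibral_mul z hf'
  have h5 : T.downM q (T.upM q f * z) = f * T.downM q z :=
    hT.functorial.projection W Y q 𝒲 𝒴 f z hq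
  rw [mul_comm, ← h5, hT.functorial.deg_down W Y q 𝒲 𝒴 _ hq h4, mul_comm]
  exact h3

/-- Geometric maps preserve the liftable classes, for all models. -/
theorem total_geometric {X Y : T.Var} {𝒳 : T.Mod X} {𝒴 : T.Mod Y} {φ : T.G X → T.G Y}
    (hφ : T.IsGeometric 𝒳 𝒴 φ) {c : T.G X} (hc : Total 𝒳 c) : Total 𝒴 (φ c) := by
  induction hφ with
  | basic W 𝒲 p q hp hq => exact total_push hT hq (total_pull hT hp hc)
  | zero => exact total_zero hT 𝒴
  | add φ ψ _ _ h1 h2 => exact total_add hT h1 h2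
  | smul a φ _ h1 => exact total_smul hT a h1

/-- Correspondences preserve the liftable classes, for all models. -/
theorem total_act {X Y : T.Var} (𝒳 : T.Mod X) (𝒴 : T.Mod Y) (Γ : T.Corr X Y) {c : T.G X}
    (hc : Total 𝒳 c) : Total 𝒴 (T.app Γ c) :=
  total_geometric hT (hT.correspondences.alteration X Y 𝒳 𝒴 Γ) hc

theorem total_of_qOneFor {Y : T.Var} {𝒴 : T.Mod Y} (h : T.QOneFor 𝒴) {c : T.G Y}
    (hc : T.IsTrivial c) : Total 𝒴 c := by
  rw [← liftable_iff hT]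
  exact fun i => h i _ (hT.grading.part_self Y i c) (hT.grading.trivial_part Y i c hc)

/-- The transported classes lift to all models. -/
theorem total_span {X : T.Var} (𝒳 : T.Mod X) {c : T.G X} (hc : T.IsTransported c) :
    Total 𝒳 c := by
  unfold IsTransported at hc
  induction hc using Submodule.span_induction with
  | mem b hb =>
    obtain ⟨Y, 𝒴, Γ, c, h1, h2, rfl⟩ := hb
    have h3 : T.QOneFor 𝒴 := h1.elim (fun h => hT.smooth Y 𝒴 h) id
    exact total_act hT 𝒴 𝒳 Γ (total_of_qOneFor hT h3 h2)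
  | zero => exact total_zero hT 𝒳
  | add b c _ _ h1 h2 => exact total_add hT h1 h2
  | smul a b _ h1 => exact total_smul hT a h1

theorem qOneFor_of_total {X : T.Var} {𝒳 : T.Mod X} (h : ∀ c, T.IsTrivial c → Total 𝒳 c) :
    T.QOneFor 𝒳 := by
  intro i c hi hc
  have h1 := (liftable_iff hT 𝒳 c).2 (h c hc) i
  have h2 : T.part i c = c := hi
  rwa [h2] at h1

/-- A homogeneous class with a lift in its degree. -/
theorem total_of_lifts {X : T.Var} {𝒳 : T.Mod X} {i : ℕ} {c : T.G X} (hi : T.IsHom i c)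
    (h : T.Lifts 𝒳 i c) : Total 𝒳 c := by
  rw [← liftable_iff hT]
  intro j
  by_cases hij : j = i
  · subst hij
    have h2 : T.part j c = c := hi
    rwa [h2]
  · rw [hT.grading.part_ne X j i c hij hi]
    refine ⟨0, map_zero (T.compM 𝒳 j), gen_zero 𝒳, fun k f _ _ _ => ?_⟩
    change T.deg 𝒳 (0 * f) = 0
    rw [zero_mul, deg_zero hT]

/-- The reduction to strictly semistable models and the middle codimension. -/
theorem reduction (h : ∀ (X : T.Var) (𝒳 : T.Mod X) (i : ℕ), T.IsSemistable 𝒳 →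
    2 * i = T.dim X + 1 → T.QOneIn 𝒳 i) (X : T.Var) (𝒳 : T.Mod X) : T.QOneFor 𝒳 := by
  refine qOneFor_of_total hT fun c hc => ?_
  obtain ⟨W, 𝒲, Γ, Γ', h1, h2⟩ := hT.correspondences.semistable X
  rw [← h2 c]
  refine total_act hT 𝒲 𝒳 Γ' ?_
  rw [← liftable_iff hT]
  intro k
  have hk : T.IsHom k (T.part k (T.app Γ c)) := hT.grading.part_self W k _
  have htr : T.IsTrivial (T.part k (T.app Γ c)) :=
    hT.grading.trivial_part W k _ (hT.correspondences.trivial_app X W Γ c hc)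
  obtain ⟨Y, 𝒴, Δ, Δ', h3, h4, h5, h6⟩ := hT.correspondences.projective W 𝒲
    (2 * k + T.dim W + 1) (T.dim W + 1) (by omega)
  have h7 := h Y 𝒴 (k + (T.dim W + 1)) (h4 h1) (by omega) _ (h5 k _ hk)
    (hT.correspondences.trivial_app W Y Δ _ htr)
  have h8 := total_act hT 𝒴 𝒲 Δ' (total_of_lifts hT (h5 k _ hk) h7)
  rw [h6] at h8
  have h9 := (liftable_iff hT 𝒲 _).2 h8 k
  have h10 : T.part k (T.part k (T.app Γ c)) = T.part k (T.app Γ c) := hk
  rwa [h10] at h9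

/-- **The main theorem.** -/
theorem main :
    (∀ (X Y : T.Var) (𝒳 : T.Mod X) (𝒴 : T.Mod Y) (Γ : T.Corr X Y) (c : T.G X),
      T.Liftable 𝒳 c → T.Liftable 𝒴 (T.app Γ c)) ∧
    (∀ (X : T.Var) (𝒳 𝒳' : T.Mod X) (c : T.G X), T.Liftable 𝒳 c → T.Liftable 𝒳' c) ∧
    (∀ (X : T.Var) (𝒳 : T.Mod X) (a c : T.G X), T.Liftable 𝒳 c → T.Liftable 𝒳 (a * c)) ∧
    (∀ (X : T.Var) (𝒳 : T.Mod X) (c : T.G X), T.IsTransported c → T.Liftable 𝒳 c) ∧
    (∀ X : T.Var, (∀ c : T.G X, T.IsTrivial c → T.IsTransported c) →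
      ∀ 𝒳 : T.Mod X, T.QOneFor 𝒳) ∧
    ((∀ (X : T.Var) (𝒳 : T.Mod X) (i : ℕ), T.IsSemistable 𝒳 → 2 * i = T.dim X + 1 →
      T.QOneIn 𝒳 i) → ∀ (X : T.Var) (𝒳 : T.Mod X), T.QOneFor 𝒳) := by
  refine ⟨fun X Y 𝒳 𝒴 Γ c h => ?_, fun X 𝒳 𝒳' c h => ?_, fun X 𝒳 a c h => ?_,
    fun X 𝒳 c h => ?_, fun X h 𝒳 => ?_, reduction hT⟩
  · rw [liftable_iff hT] at *
    exact total_act hT 𝒳 𝒴 Γ h
  · obtain ⟨Δ, hΔ⟩ := hT.correspondences.diagonal X
    rw [liftable_iff hT] at *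
    have h1 := total_act hT 𝒳 𝒳' Δ h
    rwa [hΔ] at h1
  · rw [liftable_iff hT] at *
    exact total_mul hT a h
  · rw [liftable_iff hT]
    exact total_span hT 𝒳 h
  · exact qOneFor_of_total hT fun c hc => total_span hT 𝒳 (h c hc)

end ChowTheory

end Pool.Agent.TH121.HP
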